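import Pool.Agent.Helper6.W.Defs

/-! Packet W2: `m` trajectories none of which crosses an edge exactly once. -/

namespace Pool.Agent.Helper74.W

open Equiv Pool.Agent.Helper6.W

variable {n : ℕ}

theorem desc_ge (r : ℕ) (h : 2 * r ≤ n) : ((n : ℝ) / 2) ^ r ≤ n.descFactorial r := by
  have h1 : ((n + 1 - r : ℕ) : ℝ) ^ r ≤ (n.descFactorial r : ℝ) := by
    exact_mod_cast Nat.pow_sub_le_descFactorial n r
  refine le_trans (pow_le_pow_left₀ (by positivity) ?_ r) h1
  rw [Nat.cast_sub (by omega)]
  push_cast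
  have : (2 * (r : ℝ)) ≤ n := by exact_mod_cast h
  linarith

/-- the weight of the permutations sending each `c i`, `i ∈ S`, into `W i` -/
theorem weight_into {κ : Perm (Fin n) → ℝ} {m : ℕ} (hκ : Wise κ m) (c : Fin m ↪ Fin n)
    (W : Fin m → Finset (Fin n)) (w : ℕ) (hW : ∀ i, (W i).card ≤ w) (S : Finset (Fin m)) :
    ∑ g : Perm (Fin n), κ g * (if ∀ i ∈ S, g (c i) ∈ W i then (1 : ℝ) else 0) ≤
      (w : ℝ) ^ S.card * (2 / (n.descFactorial S.card : ℝ)) := by
  classical
  set j := S.card with hj
  let e : Fin j ≃ S := S.equivFin.symm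
  let a : Fin j ↪ Fin n := ⟨fun i => c (e i), fun i i' h => by
    have := c.injective h
    exact e.injective (Subtype.ext this)⟩
  set Bs : Finset (Fin j ↪ Fin n) := Finset.univ.filter (fun b => ∀ i, b i ∈ W (e i)) with hBs
  have hjm : j ≤ m := by
    have := Finset.card_le_univ S
    simpa using this
  have hcard : (Bs.card : ℝ) ≤ (w : ℝ) ^ j := by
    have h1 : Bs.card ≤ (Fintype.piFinset (fun i : Fin j => W (e i))).card := by
      refine Finset.card_le_card_of_injOn (fun b => (b : Fin j → Fin n)) ?_ ?_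
      · intro b hb
        simp only [hBs, Finset.coe_filter, Finset.mem_univ, true_and, Set.mem_ofPred_eq] at hb
        simpa [Fintype.mem_piFinset] using hb
      · intro b _ b' _ hbb
        exact DFunLike.coe_injective hbb
    have h2 : (Fintype.piFinset (fun i : Fin j => W (e i))).card ≤ w ^ j := by
      rw [Fintype.card_piFinset]
      calc ∏ i : Fin j, (W (e i)).card ≤ ∏ _i : Fin j, w := Finset.prod_le_prod' fun i _ => hW _
        _ = w ^ j := by simp
    exact_mod_cast h1.trans h2
  have hstep : ∀ g : Perm (Fin n), κ g * (if ∀ i ∈ S, g (c i) ∈ W i then (1 : ℝ) else 0) ≤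
      ∑ b ∈ Bs, if ∀ i, g (a i) = b i then κ g else 0 := by
    intro g
    split_ifs with hg
    · have hb : (⟨fun i => g (a i), fun i i' h => a.injective (g.injective h)⟩ : Fin j ↪ Fin n) ∈ Bs := by
        rw [hBs, Finset.mem_filter]
        refine ⟨Finset.mem_univ _, fun i => ?_⟩
        exact hg _ (e i).2
      refine le_trans ?_ (Finset.single_le_sum (f := fun b : Fin j ↪ Fin n =>
        if ∀ i, g (a i) = b i then κ g else 0) (fun b _ => by
          split_ifs
          · exact hκ.nonneg g
          · exact le_refl _) hb)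
      have hyes : ∀ i : Fin j, g (a i) =
          (⟨fun i => g (a i), fun i i' h => a.injective (g.injective h)⟩ : Fin j ↪ Fin n) i :=
        fun i => rfl
      exact le_of_eq ((mul_one _).trans (if_pos hyes).symm)
    · rw [mul_zero]
      refine Finset.sum_nonneg fun b _ => ?_
      split_ifs
      · exact hκ.nonneg g
      · exact le_refl _
  calc ∑ g : Perm (Fin n), κ g * (if ∀ i ∈ S, g (c i) ∈ W i then (1 : ℝ) else 0)
      ≤ ∑ g : Perm (Fin n), ∑ b ∈ Bs, (if ∀ i, g (a i) = b i then κ g else 0) :=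
        Finset.sum_le_sum fun g _ => hstep g
    _ = ∑ b ∈ Bs, ∑ g : Perm (Fin n), (if ∀ i, g (a i) = b i then κ g else 0) :=
        Finset.sum_comm
    _ ≤ ∑ _b ∈ Bs, (2 / (n.descFactorial j : ℝ)) := by
        refine Finset.sum_le_sum fun b _ => ?_
        rw [← Finset.sum_filter]
        have := hκ.wise j hjm a b
        convert this using 2
    _ = Bs.card * (2 / (n.descFactorial j : ℝ)) := by simp
    _ ≤ (w : ℝ) ^ j * (2 / (n.descFactorial j : ℝ)) :=
        mul_le_mul_of_nonneg_right hcard (by positivity)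

/-- exponential moment of the number of hits -/
theorem moment_into {κ : Perm (Fin n) → ℝ} {m : ℕ} (hκ : Wise κ m) (h2 : 2 * m ≤ n)
    (c : Fin m ↪ Fin n) (W : Fin m → Finset (Fin n)) (w : ℕ) (hw : 0 < w) (hwn : 2 * w ≤ n)
    (hW : ∀ i, (W i).card ≤ w) :
    ∑ g : Perm (Fin n), κ g *
      ((n : ℝ) / (2 * w)) ^ (Finset.univ.filter fun i : Fin m => g (c i) ∈ W i).card ≤
      2 ^ (m + 1) := by
  classical
  have hn : 0 < n := by omega
  have hwR : (0 : ℝ) < w := by exact_mod_cast hw
  have hnR : (0 : ℝ) < n := by exact_mod_cast hn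
  set l : ℝ := (n : ℝ) / (2 * w) with hl
  have hl1 : 1 ≤ l := by
    rw [hl, le_div_iff₀ (by positivity)]
    have : ((2 * w : ℕ) : ℝ) ≤ n := by exact_mod_cast hwn
    push_cast at this
    linarith
  have hexp : ∀ g : Perm (Fin n),
      l ^ (Finset.univ.filter fun i : Fin m => g (c i) ∈ W i).card ≤
        ∑ S : Finset (Fin m), l ^ S.card * (if ∀ i ∈ S, g (c i) ∈ W i then (1 : ℝ) else 0) := by
    intro g
    set A := Finset.univ.filter fun i : Fin m => g (c i) ∈ W i with hA
    refine le_trans ?_ (Finset.single_le_sum (f := fun S : Finset (Fin m) =>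
      l ^ S.card * (if ∀ i ∈ S, g (c i) ∈ W i then (1 : ℝ) else 0)) (fun S _ => by positivity)
      (Finset.mem_univ A))
    have : ∀ i ∈ A, g (c i) ∈ W i := fun i hi => (Finset.mem_filter.1 hi).2
    simp only [if_pos this, mul_one]
    exact le_refl _
  calc ∑ g : Perm (Fin n), κ g *
      l ^ (Finset.univ.filter fun i : Fin m => g (c i) ∈ W i).card
      ≤ ∑ g : Perm (Fin n), κ g * ∑ S : Finset (Fin m),
          l ^ S.card * (if ∀ i ∈ S, g (c i) ∈ W i then (1 : ℝ) else 0) :=
        Finset.sum_le_sum fun g _ => mul_le_mul_of_nonneg_left (hexp g) (hκ.nonneg g)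
    _ = ∑ S : Finset (Fin m), l ^ S.card * ∑ g : Perm (Fin n), κ g *
          (if ∀ i ∈ S, g (c i) ∈ W i then (1 : ℝ) else 0) := by
        simp_rw [Finset.mul_sum]
        rw [Finset.sum_comm]
        refine Finset.sum_congr rfl fun S _ => Finset.sum_congr rfl fun g _ => by ring
    _ ≤ ∑ _S : Finset (Fin m), (2 : ℝ) := by
        refine Finset.sum_le_sum fun S _ => ?_
        have h3 := weight_into hκ c W w hW S
        have hSm : S.card ≤ m := by simpa using Finset.card_le_univ S
        have h4 := desc_ge (n := n) S.card (by omega)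
        have hdpos : (0 : ℝ) < (n.descFactorial S.card : ℝ) :=
          lt_of_lt_of_le (by positivity) h4
        calc l ^ S.card * ∑ g : Perm (Fin n), κ g *
              (if ∀ i ∈ S, g (c i) ∈ W i then (1 : ℝ) else 0)
            ≤ l ^ S.card * ((w : ℝ) ^ S.card * (2 / (n.descFactorial S.card : ℝ))) :=
              mul_le_mul_of_nonneg_left h3 (by positivity)
          _ = 2 * (((n : ℝ) / 2) ^ S.card / (n.descFactorial S.card : ℝ)) := by
              have : l * w = (n : ℝ) / 2 := by
                rw [hl]; field_simp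
              rw [← this, mul_pow]
              ring
          _ ≤ 2 * 1 := by
              refine mul_le_mul_of_nonneg_left ?_ (by norm_num)
              rw [div_le_one hdpos]
              exact h4
          _ = 2 := by ring
    _ = 2 ^ (m + 1) := by
        simp [pow_succ]

theorem pos_congr {y : Perm (Fin n)} {Z Z' : ℕ → Perm (Fin n)} {t : ℕ}
    (h : ∀ s < t, Z s = Z' s) : pos y Z t = pos y Z' t := by
  induction t with
  | zero => rfl
  | succ t ih =>
    rw [pos, pos, h t (Nat.lt_succ_self t), ih fun s hs => h s (Nat.lt_succ_of_lt hs)]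

theorem lab_congr {y : Perm (Fin n)} {Z Z' : ℕ → Perm (Fin n)} {t : ℕ}
    (h : ∀ s < t, Z s = Z' s) : lab y Z t = lab y Z' t := by
  rw [lab, lab, pos_congr h]

open Classical in
/-- the starting points whose label at time `t` was already seen -/
noncomputable def co {m : ℕ} (y : Perm (Fin n)) (ps : Fin m ↪ Fin n) (Z : ℕ → Perm (Fin n))
    (t : ℕ) : Finset (Fin m) :=
  Finset.univ.filter fun i => ∃ t' < t, lab y Z t' (ps i) = lab y Z t (ps i)

theorem co_congr {m : ℕ} {y : Perm (Fin n)} {ps : Fin m ↪ Fin n} {Z Z' : ℕ → Perm (Fin n)}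
    {t : ℕ} (h : ∀ s < t, Z s = Z' s) : co y ps Z t = co y ps Z' t := by
  unfold co
  refine Finset.filter_congr fun i _ => ?_
  refine exists_congr fun t' => and_congr_right fun ht' => ?_
  rw [lab_congr (fun s hs => h s (lt_trans hs ht')), lab_congr h]

/-- one step -/
theorem co_step {κ : Perm (Fin n) → ℝ} {m : ℕ} (hκ : Wise κ m) (h2 : 2 * m ≤ n)
    (y : Perm (Fin n)) (ps : Fin m ↪ Fin n) (w : ℕ) (hw : 0 < w) (hwn : 2 * w ≤ n)
    (T : ℕ) (hT : T + 1 ≤ w) (Z : ℕ → Perm (Fin n)) :
    ∑ g : Perm (Fin n), κ g *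
      ((n : ℝ) / (2 * w)) ^ (co y ps (Function.update Z T g) (T + 1)).card ≤ 2 ^ (m + 1) := by
  classical
  let c : Fin m ↪ Fin n := ⟨fun i => cr y T (pos y Z T (ps i)), fun i i' h =>
    ps.injective ((pos y Z T).injective ((cr y T).injective h))⟩
  let s : Perm (Fin n) := if Even (T + 1) then 1 else y
  let W : Fin m → Finset (Fin n) := fun i =>
    ((Finset.range (T + 1)).image (fun t' => lab y Z t' (ps i))).image s
  have hW : ∀ i, (W i).card ≤ w := fun i =>
    (Finset.card_image_le.trans Finset.card_image_le).trans (by simpa using hT)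
  have hkey := moment_into hκ h2 c W w hw hwn hW
  refine le_trans (le_of_eq ?_) hkey
  refine Finset.sum_congr rfl fun g _ => ?_
  congr 2
  unfold co
  congr 1
  refine Finset.filter_congr fun i _ => ?_
  have hold : ∀ t' < T + 1, lab y (Function.update Z T g) t' = lab y Z t' := by
    intro t' ht'
    refine lab_congr fun u hu => ?_
    rw [Function.update_of_ne (by omega)]
  have hpos : pos y (Function.update Z T g) (T + 1) (ps i) = g (c i) := by
    have h5 : pos y (Function.update Z T g) T = pos y Z T :=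
      pos_congr fun u hu => by rw [Function.update_of_ne (by omega)]
    show (Function.update Z T g T * cr y T * pos y (Function.update Z T g) T) (ps i) = _
    rw [h5, Function.update_self]
    rfl
  have hlab : s (lab y (Function.update Z T g) (T + 1) (ps i)) = g (c i) := by
    rw [← hpos]
    show s ((if Even (T + 1) then pos y (Function.update Z T g) (T + 1)
      else y⁻¹ * pos y (Function.update Z T g) (T + 1)) (ps i)) = _
    by_cases hev : Even (T + 1)
    · simp only [s, if_pos hev]
      rfl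
    · simp only [s, if_neg hev]
      simp [Perm.mul_apply]
  constructor
  · rintro ⟨t', ht', h⟩
    rw [hold t' ht'] at h
    rw [← hlab]
    refine Finset.mem_image_of_mem _ ?_
    rw [← h]
    exact Finset.mem_image_of_mem (fun t' => lab y Z t' (ps i)) (Finset.mem_range.2 ht')
  · intro h
    rw [← hlab] at h
    obtain ⟨x, hx, hxe⟩ := Finset.mem_image.1 h
    obtain ⟨t', ht', hxt⟩ := Finset.mem_image.1 hx
    refine ⟨t', Finset.mem_range.1 ht', ?_⟩
    rw [hold t' (Finset.mem_range.1 ht')]
    rw [hxt]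
    exact s.injective hxe

theorem ext_snoc {T : ℕ} (Z : Fin T → Perm (Fin n)) (g : Perm (Fin n)) :
    ext (Fin.snoc Z g : Fin (T + 1) → Perm (Fin n)) = Function.update (ext Z) T g := by
  funext t
  rcases lt_trichotomy t T with h | h | h
  · rw [Function.update_of_ne (by omega)]
    unfold Pool.Agent.Helper6.W.ext
    rw [dif_pos h, dif_pos (by omega : t < T + 1)]
    have : (⟨t, by omega⟩ : Fin (T + 1)) = Fin.castSucc ⟨t, h⟩ := rfl
    rw [this, Fin.snoc_castSucc (α := fun _ => Perm (Fin n))]
  · subst h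
    rw [Function.update_self]
    unfold Pool.Agent.Helper6.W.ext
    rw [dif_pos (by omega : t < t + 1)]
    have : (⟨t, by omega⟩ : Fin (t + 1)) = Fin.last t := rfl
    rw [this, Fin.snoc_last (α := fun _ => Perm (Fin n))]
  · rw [Function.update_of_ne (by omega)]
    unfold Pool.Agent.Helper6.W.ext
    rw [dif_neg (by omega), dif_neg (by omega)]

theorem moment_total {κ : Perm (Fin n) → ℝ} {m : ℕ} (hκ : Wise κ m) (h2 : 2 * m ≤ n)
    (y : Perm (Fin n)) (ps : Fin m ↪ Fin n) (w : ℕ) (hw : 0 < w) (hwn : 2 * w ≤ n)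
    (T : ℕ) (hT : T ≤ w) :
    ∑ Z : Fin T → Perm (Fin n), (∏ t, κ (Z t)) *
      ((n : ℝ) / (2 * w)) ^ (∑ t ∈ Finset.range (T + 1), (co y ps (ext Z) t).card) ≤
      (2 ^ (m + 1)) ^ T := by
  classical
  induction T with
  | zero =>
    have : ∀ Z : Fin 0 → Perm (Fin n), (co y ps (ext Z) 0).card = 0 := by
      intro Z
      unfold co
      simp
    simp [this]
  | succ T ih =>
    have hn : 0 < n := by omega
    have hwR : (0 : ℝ) < w := by exact_mod_cast hw
    have hnR : (0 : ℝ) < n := by exact_mod_cast hn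
    rw [← (Fin.snocEquiv (fun _ : Fin (T + 1) => Perm (Fin n))).sum_comp, Fintype.sum_prod_type,
      Finset.sum_comm]
    have hterm : ∀ (Z : Fin T → Perm (Fin n)) (g : Perm (Fin n)),
        (∏ t, κ ((Fin.snocEquiv (fun _ : Fin (T + 1) => Perm (Fin n))) (g, Z) t)) *
          ((n : ℝ) / (2 * w)) ^ (∑ t ∈ Finset.range (T + 1 + 1),
            (co y ps (ext ((Fin.snocEquiv (fun _ : Fin (T + 1) => Perm (Fin n))) (g, Z))) t).card) =
        ((∏ t, κ (Z t)) *
          ((n : ℝ) / (2 * w)) ^ (∑ t ∈ Finset.range (T + 1), (co y ps (ext Z) t).card)) *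
        (κ g * ((n : ℝ) / (2 * w)) ^
          (co y ps (Function.update (ext Z) T g) (T + 1)).card) := by
      intro Z g
      have h1 : ((Fin.snocEquiv (fun _ : Fin (T + 1) => Perm (Fin n))) (g, Z)) =
          (Fin.snoc Z g : Fin (T + 1) → Perm (Fin n)) := rfl
      rw [h1, ext_snoc, Finset.sum_range_succ, pow_add, Fin.prod_univ_castSucc]
      have h3 : ∀ t ∈ Finset.range (T + 1), (co y ps (Function.update (ext Z) T g) t).card =
          (co y ps (ext Z) t).card := by
        intro t ht
        rw [Finset.mem_range] at ht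
        rw [co_congr (fun u hu => by rw [Function.update_of_ne (by omega)])]
      rw [Finset.sum_congr rfl h3]
      simp only [Fin.snoc_castSucc (α := fun _ => Perm (Fin n)),
        Fin.snoc_last (α := fun _ => Perm (Fin n))]
      ring
    simp_rw [hterm]
    calc ∑ Z : Fin T → Perm (Fin n), ∑ g : Perm (Fin n), ((∏ t, κ (Z t)) *
          ((n : ℝ) / (2 * w)) ^ (∑ t ∈ Finset.range (T + 1), (co y ps (ext Z) t).card)) *
        (κ g * ((n : ℝ) / (2 * w)) ^ (co y ps (Function.update (ext Z) T g) (T + 1)).card)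
        ≤ ∑ Z : Fin T → Perm (Fin n), ((∏ t, κ (Z t)) *
          ((n : ℝ) / (2 * w)) ^ (∑ t ∈ Finset.range (T + 1), (co y ps (ext Z) t).card)) *
          2 ^ (m + 1) := by
          refine Finset.sum_le_sum fun Z _ => ?_
          rw [← Finset.mul_sum]
          refine mul_le_mul_of_nonneg_left (co_step hκ h2 y ps w hw hwn T hT (ext Z)) ?_
          exact mul_nonneg (Finset.prod_nonneg fun t _ => hκ.nonneg _) (by positivity)
      _ = (∑ Z : Fin T → Perm (Fin n), (∏ t, κ (Z t)) *
          ((n : ℝ) / (2 * w)) ^ (∑ t ∈ Finset.range (T + 1), (co y ps (ext Z) t).card)) *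
          2 ^ (m + 1) := by rw [Finset.sum_mul]
      _ ≤ (2 ^ (m + 1)) ^ T * 2 ^ (m + 1) :=
          mul_le_mul_of_nonneg_right (ih (by omega)) (by positivity)
      _ = (2 ^ (m + 1)) ^ (T + 1) := (pow_succ _ _).symm

/-- a sequence of length `2 q` without a value taken exactly once has at least `q` repetitions -/
theorem repeats {α : Type*} [DecidableEq α] (l : ℕ → α) (q : ℕ)
    (h : ∀ t < 2 * q, ∃ t' < 2 * q, t' ≠ t ∧ l t' = l t) :
    q ≤ ((Finset.range (2 * q)).filter fun t => ∃ t' < t, l t' = l t).card := by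
  classical
  set R := Finset.range (2 * q)
  set C := R.filter fun t => ∃ t' < t, l t' = l t with hC
  set F := R.filter fun t => ¬ ∃ t' < t, l t' = l t with hF
  have h1 : C.card + F.card = 2 * q := by
    have := Finset.card_filter_add_card_filter_not (s := R) (fun t => ∃ t' < t, l t' = l t)
    rw [Finset.card_range] at this
    exact this
  have h2 : F.card ≤ C.card := by
    have hch : ∀ t ∈ F, ∃ t' ∈ C, l t' = l t := by
      intro t ht
      rw [hF, Finset.mem_filter] at ht
      obtain ⟨t', ht', hne, he⟩ := h t (Finset.mem_range.1 ht.1)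
      refine ⟨t', ?_, he⟩
      rw [hC, Finset.mem_filter]
      refine ⟨Finset.mem_range.2 ht', t, ?_, he.symm⟩
      rcases lt_trichotomy t' t with h' | h' | h'
      · exact absurd ⟨t', h', he⟩ ht.2
      · exact absurd h' hne
      · exact h'
    choose! φ hφ using hch
    refine Finset.card_le_card_of_injOn φ (fun t ht => (hφ t ht).1) ?_
    intro s hs t ht hst
    have e1 := (hφ s hs).2
    have e2 := (hφ t ht).2
    rw [hst] at e1
    have e3 : l s = l t := e1.symm.trans e2
    rw [Finset.mem_coe, hF, Finset.mem_filter] at hs ht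
    rcases lt_trichotomy s t with h' | h' | h'
    · exact absurd ⟨s, h', e3⟩ ht.2
    · exact h'
    · exact absurd ⟨t, h', e3.symm⟩ hs.2
  omega

theorem twice_count {n m q : ℕ} {κ : Perm (Fin n) → ℝ} (hκ : Wise κ m) (h2 : 2 * m ≤ n)
    (hq : 4 * q ≤ n) (y : Perm (Fin n)) (ps : Fin m ↪ Fin n) :
    ∑ Z : Fin (2 * q) → Perm (Fin n), (∏ t, κ (Z t)) *
        (open Classical in if ∀ i, ¬ Once y (ext Z) (2 * q) (ps i) then (1 : ℝ) else 0) ≤
      2 ^ (2 * q) * 2 ^ (2 * q * m) * (4 * q / n : ℝ) ^ (m * q) := by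
  classical
  rcases Nat.eq_zero_or_pos q with rfl | hq0
  · simp only [mul_zero, zero_mul, pow_zero, mul_one]
    have : ∀ Z : Fin 0 → Perm (Fin n), (∏ t, κ (Z t)) *
        (if ∀ i, ¬ Once y (ext Z) 0 (ps i) then (1 : ℝ) else 0) ≤ 1 := by
      intro Z
      simp only [Finset.univ_eq_empty, Finset.prod_empty, one_mul]
      split_ifs <;> norm_num
    calc _ ≤ ∑ _Z : Fin 0 → Perm (Fin n), (1 : ℝ) := Finset.sum_le_sum fun Z _ => this Z
      _ = 1 := by simp
  have hn : 0 < n := by omega
  have hnR : (0 : ℝ) < n := by exact_mod_cast hn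
  have hqR : (0 : ℝ) < q := by exact_mod_cast hq0
  set l : ℝ := (n : ℝ) / (2 * ((2 * q : ℕ) : ℝ)) with hl
  have hl4 : l = (4 * q / n : ℝ)⁻¹ := by
    rw [hl]; push_cast; rw [inv_div]; ring
  have hl1 : 1 ≤ l := by
    rw [hl, le_div_iff₀ (by positivity)]
    have : ((4 * q : ℕ) : ℝ) ≤ n := by exact_mod_cast hq
    push_cast at this ⊢
    linarith
  have hmain := moment_total hκ h2 y ps (2 * q) (by omega) (by omega) (2 * q) le_rfl
  rw [← hl] at hmain
  have hpt : ∀ Z : Fin (2 * q) → Perm (Fin n), (∏ t, κ (Z t)) *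
        (if ∀ i, ¬ Once y (ext Z) (2 * q) (ps i) then (1 : ℝ) else 0) * l ^ (m * q) ≤
      (∏ t, κ (Z t)) * l ^ (∑ t ∈ Finset.range (2 * q + 1), (co y ps (ext Z) t).card) := by
    intro Z
    have hp : 0 ≤ ∏ t, κ (Z t) := Finset.prod_nonneg fun t _ => hκ.nonneg _
    rw [mul_assoc]
    refine mul_le_mul_of_nonneg_left ?_ hp
    split_ifs with h
    · rw [one_mul]
      refine pow_le_pow_right₀ hl1 ?_
      have h3 : ∀ i, q ≤ ((Finset.range (2 * q)).filter fun t =>
          ∃ t' < t, lab y (ext Z) t' (ps i) = lab y (ext Z) t (ps i)).card := by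
        intro i
        refine repeats (fun t => lab y (ext Z) t (ps i)) q ?_
        intro t ht
        by_contra hcon
        push Not at hcon
        exact h i ⟨t, ht, fun t' ht' hne => hcon t' ht' hne⟩
      calc m * q = ∑ _i : Fin m, q := by simp
        _ ≤ ∑ i : Fin m, ((Finset.range (2 * q)).filter fun t =>
            ∃ t' < t, lab y (ext Z) t' (ps i) = lab y (ext Z) t (ps i)).card :=
            Finset.sum_le_sum fun i _ => h3 i
        _ = ∑ t ∈ Finset.range (2 * q), (co y ps (ext Z) t).card := by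
            unfold co
            simp_rw [Finset.card_filter]
            rw [Finset.sum_comm]
        _ ≤ ∑ t ∈ Finset.range (2 * q + 1), (co y ps (ext Z) t).card := by
            rw [Finset.sum_range_succ]
            omega
    · rw [zero_mul]
      positivity
  have hsum : (∑ Z : Fin (2 * q) → Perm (Fin n), (∏ t, κ (Z t)) *
        (if ∀ i, ¬ Once y (ext Z) (2 * q) (ps i) then (1 : ℝ) else 0)) * l ^ (m * q) ≤
      (2 ^ (m + 1)) ^ (2 * q) := by
    rw [Finset.sum_mul]
    exact (Finset.sum_le_sum fun Z _ => hpt Z).trans hmain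
  have hlpos : 0 < l ^ (m * q) := by positivity
  have h5 : (4 * q / n : ℝ) ^ (m * q) = (l ^ (m * q))⁻¹ := by
    rw [hl4, inv_pow, inv_inv]
  rw [h5, ← div_eq_mul_inv, le_div_iff₀ hlpos]
  refine hsum.trans (le_of_eq ?_)
  rw [← pow_mul, ← pow_add]
  congr 1
  ring

end Pool.Agent.Helper74.W
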